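import Mathlib

set_option autoImplicit false

namespace Pool.Agent.Results.MP_72c4d1_al.AffineCosets

open Equiv

/-- The affine permutations `i ↦ a i + b` of `ZMod n`. -/
def Aff (n : ℕ) : Subgroup (Perm (ZMod n)) where
  carrier := {σ | ∃ (a : (ZMod n)ˣ) (b : ZMod n), ∀ x, σ x = a * x + b}
  mul_mem' := by
    rintro σ τ ⟨a, b, h⟩ ⟨c, d, h'⟩
    refine ⟨a * c, a * d + b, fun x => ?_⟩
    rw [Perm.mul_apply, h', h]; push_cast; ring
  one_mem' := ⟨1, 0, fun x => by simp⟩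
  inv_mem' := by
    rintro σ ⟨a, b, h⟩
    refine ⟨a⁻¹, - (↑(a⁻¹) * b), fun x => ?_⟩
    apply σ.injective
    have h1 : σ (σ⁻¹ x) = x := σ.apply_symm_apply x
    rw [h1, h, mul_add, mul_neg, ← mul_assoc, ← mul_assoc, Units.mul_inv, one_mul, one_mul]; ring

/-- The dihedral group: the permutations `i ↦ u i + b` with `u = 1` or `u = -1`. -/
def dihedral (n : ℕ) : Subgroup (Perm (ZMod n)) where
  carrier := {σ | ∃ (u b : ZMod n), (u = 1 ∨ u = -1) ∧ ∀ x, σ x = u * x + b}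
  mul_mem' := by
    rintro σ τ ⟨a, b, ha, h⟩ ⟨c, d, hc, h'⟩
    refine ⟨a * c, a * d + b, ?_, fun x => ?_⟩
    · rcases ha with rfl | rfl <;> rcases hc with rfl | rfl <;> simp
    · rw [Perm.mul_apply, h', h]; ring
  one_mem' := ⟨1, 0, Or.inl rfl, fun x => by simp⟩
  inv_mem' := by
    rintro σ ⟨a, b, ha, h⟩
    refine ⟨a, - (a * b), ha, fun x => ?_⟩
    apply σ.injective
    have h1 : σ (σ⁻¹ x) = x := σ.apply_symm_apply x
    rw [h1, h]
    rcases ha with rfl | rfl <;> ring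

/-- The product of the distinct primes dividing `n`. -/
def rad (n : ℕ) : ℕ := ∏ p ∈ n.primeFactors, p

theorem rad_dvd (n : ℕ) : rad n ∣ n := Nat.prod_primeFactors_dvd n

/-- Reduction modulo `rad n`. -/
def red (n : ℕ) : ZMod n →+* ZMod (rad n) := ZMod.castHom (rad_dvd n) (ZMod (rad n))

/-- The lifted dihedral group `D^#_n`: the permutations `i ↦ u i + b` with `u` a unit and
`u ^ 2 ≡ 1` modulo `rad n`. -/
def lifted (n : ℕ) : Subgroup (Perm (ZMod n)) where
  carrier := {σ | ∃ (u : (ZMod n)ˣ) (b : ZMod n), red n u ^ 2 = 1 ∧ ∀ x, σ x = u * x + b}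
  mul_mem' := by
    rintro σ τ ⟨a, b, ha, h⟩ ⟨c, d, hc, h'⟩
    refine ⟨a * c, a * d + b, ?_, fun x => ?_⟩
    · rw [Units.val_mul, map_mul, mul_pow, ha, hc, one_mul]
    · rw [Perm.mul_apply, h', h]; push_cast; ring
  one_mem' := ⟨1, 0, by simp, fun x => by simp⟩
  inv_mem' := by
    rintro σ ⟨a, b, ha, h⟩
    refine ⟨a⁻¹, - (↑(a⁻¹) * b), ?_, fun x => ?_⟩
    · have h1 : red n (a : ZMod n) * red n ((a⁻¹ : (ZMod n)ˣ) : ZMod n) = 1 := by
        rw [← map_mul, Units.mul_inv, map_one]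
      calc red n ((a⁻¹ : (ZMod n)ˣ) : ZMod n) ^ 2
          = (red n (a : ZMod n)) ^ 2 * red n ((a⁻¹ : (ZMod n)ˣ) : ZMod n) ^ 2 := by rw [ha, one_mul]
        _ = 1 := by rw [← mul_pow, h1, one_pow]
    · apply σ.injective
      have h1 : σ (σ⁻¹ x) = x := σ.apply_symm_apply x
      rw [h1, h, mul_add, mul_neg, ← mul_assoc, ← mul_assoc, Units.mul_inv, one_mul, one_mul]; ring

/-- The coset `σ H` is closed under products of `N` of its elements. -/
def IsNaryCoset {n : ℕ} (σ : Perm (ZMod n)) (H : Subgroup (Perm (ZMod n))) (N : ℕ) : Prop :=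
  ∀ l : List (Perm (ZMod n)), l.length = N → (∀ τ ∈ l, ∃ h ∈ H, τ = σ * h) → ∃ h ∈ H, l.prod = σ * h

/-- Panmagic permutations. -/
def Panmagic {n : ℕ} (σ : Perm (ZMod n)) : Prop :=
  Function.Bijective (fun i => σ i + i) ∧ Function.Bijective (fun i => σ i - i)

theorem conj_mem {n : ℕ} {σ : Perm (ZMod n)} {H : Subgroup (Perm (ZMod n))} {N : ℕ} (hN : 2 ≤ N)
    (h : IsNaryCoset σ H N) (g : Perm (ZMod n)) (hg : g ∈ H) : σ * g * σ⁻¹ ∈ H := by
  obtain ⟨k, rfl⟩ : ∃ k, N = k + 2 := ⟨N - 2, by omega⟩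
  have key : ∀ g ∈ H, σ * g * σ ^ k ∈ H := by
    intro g hg
    obtain ⟨h', hh', he⟩ := h (σ :: (σ * g) :: List.replicate k σ) (by simp) (by
      intro τ hτ
      simp only [List.mem_cons, List.mem_replicate] at hτ
      rcases hτ with rfl | rfl | ⟨-, rfl⟩
      · exact ⟨1, one_mem _, by simp⟩
      · exact ⟨g, hg, rfl⟩
      · exact ⟨1, one_mem _, by simp⟩)
    rw [List.prod_cons, List.prod_cons, List.prod_replicate] at he
    have := mul_left_cancel he
    rw [this]; exact hh'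
  have h1 := key 1 (one_mem _)
  have h2 := mul_mem (key g hg) (inv_mem h1)
  convert h2 using 1
  group

theorem main {n : ℕ} [NeZero n] (hn : Odd n) {H : Subgroup (Perm (ZMod n))} (hD : dihedral n ≤ H)
    (hA : H ≤ Aff n) {σ : Perm (ZMod n)} (hσ : ∀ g ∈ H, σ * g * σ⁻¹ ∈ H) (h0 : σ 0 = 0) : σ ∈ Aff n := by
  obtain ⟨q, b, h1⟩ := hA (hσ (Equiv.addRight 1) (hD ⟨1, 1, Or.inl rfl, fun x => by simp⟩))
  obtain ⟨e, c, h2⟩ := hA (hσ (Equiv.neg _) (hD ⟨-1, 0, Or.inr rfl, fun x => by simp⟩))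
  have h3 : ∀ x, σ (x + 1) = q * σ x + b := by
    intro x
    have := h1 (σ x)
    rw [← this, Perm.mul_apply, Perm.mul_apply]
    have h : σ⁻¹ (σ x) = x := σ.symm_apply_apply x
    rw [h]; rfl
  have h4 : ∀ x, σ (-x) = e * σ x := by
    have h5 : ∀ x, σ (-x) = e * σ x + c := by
      intro x
      have := h2 (σ x)
      rw [← this, Perm.mul_apply, Perm.mul_apply]
      have h : σ⁻¹ (σ x) = x := σ.symm_apply_apply x
      rw [h]; rfl
    have h6 := h5 0
    rw [neg_zero, h0, mul_zero, zero_add] at h6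
    intro x; rw [h5, ← h6, add_zero]
  -- iterating
  have h5 : ∀ (k : ℕ) (x : ZMod n), ∃ d, σ (x + k) = q ^ k * σ x + b * d ∧ (∀ y, σ (y + k) = q ^ k * σ y + b * d) := by
    intro k
    induction k with
    | zero => intro x; exact ⟨0, by simp, fun y => by simp⟩
    | succ k ih =>
      intro x
      obtain ⟨d, -, hd'⟩ := ih x
      have h6 : ∀ y, σ (y + (k + 1 : ℕ)) = q ^ (k + 1) * σ y + b * (q * d + 1) := by
        intro y
        rw [Nat.cast_add, Nat.cast_one, ← add_assoc, h3, hd']; ring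
      exact ⟨q * d + 1, h6 x, h6⟩
  have hb : ∀ y : ZMod n, ∃ d, y = b * d := by
    intro y
    obtain ⟨d, hd, -⟩ := h5 (σ⁻¹ y).val 0
    refine ⟨d, ?_⟩
    rw [zero_add, ZMod.natCast_zmod_val, h0, mul_zero, zero_add] at hd
    rw [← hd]
    exact (σ.apply_symm_apply y).symm
  have hbu : IsUnit b := by
    obtain ⟨d, hd⟩ := hb 1
    exact IsUnit.of_mul_eq_one d hd.symm
  have hqn : (q : ZMod n) ^ n = 1 := by
    obtain ⟨d, -, hd⟩ := h5 n 0
    have e0 := hd 0
    rw [ZMod.natCast_self, add_zero, h0, mul_zero, zero_add] at e0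
    have e1 := hd (σ⁻¹ 1)
    have h : σ (σ⁻¹ 1) = 1 := σ.apply_symm_apply 1
    rw [ZMod.natCast_self, add_zero, ← e0, add_zero, h, mul_one] at e1
    exact e1.symm
  have hq2 : (q : ZMod n) ^ 2 = 1 := by
    have a1 : σ 1 = b := by have := h3 0; rwa [zero_add, h0, mul_zero, zero_add] at this
    have a2 : σ 2 = q * b + b := by
      have := h3 1; rw [a1] at this; rwa [one_add_one_eq_two] at this
    have a3 : (0 : ZMod n) = q * σ (-1) + b := by
      have := h3 (-1); rwa [neg_add_cancel, h0] at this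
    have a4 : σ (-1) = q * σ (-2) + b := by
      have := h3 (-2)
      rwa [show (-2 : ZMod n) + 1 = -1 by ring] at this
    rw [h4, a1] at a3 a4
    rw [h4, a2] at a4
    -- a3 : 0 = q * (e * b) + b ; a4 : e * b = q * (e * (q * b + b)) + b
    have a5 : (q : ZMod n) * (e * b) = - b := by linear_combination -a3
    have a6 : (e : ZMod n) * b = - (q * b) := by
      calc (e : ZMod n) * b = q * (e * (q * b + b)) + b := a4
        _ = (q * (e * b)) * q + (q * (e * b)) + b := by ring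
        _ = - (q * b) := by rw [a5]; ring
    rw [a6] at a5
    have a7 : (q : ZMod n) ^ 2 * b = 1 * b := by linear_combination -a5
    exact hbu.mul_right_cancel a7
  have hq : (q : ZMod n) = 1 := by
    obtain ⟨k, hk⟩ := hn
    have h7 : (q : ZMod n) ^ (2 * k + 1) = 1 := by rw [← hk]; exact hqn
    rwa [pow_add, pow_mul, hq2, one_pow, one_mul, pow_one] at h7
  have h6 : ∀ k : ℕ, σ (k : ZMod n) = b * k := by
    intro k
    induction k with
    | zero => simp [h0]
    | succ k ih => rw [Nat.cast_add, Nat.cast_one, h3, ih, hq]; ring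
  refine ⟨hbu.unit, 0, fun x => ?_⟩
  have := h6 x.val
  rw [ZMod.natCast_zmod_val] at this
  rw [this, IsUnit.unit_spec, add_zero]

theorem general {n : ℕ} (hn : Odd n) {H : Subgroup (Perm (ZMod n))} (hD : dihedral n ≤ H)
    (hA : H ≤ Aff n) {σ : Perm (ZMod n)} {N : ℕ} (hN : 2 ≤ N) (hσ : IsNaryCoset σ H N) : σ ∈ Aff n := by
  have : NeZero n := ⟨by rintro rfl; exact absurd hn (by decide)⟩
  have h1 : Equiv.addRight (-σ 0) ∈ dihedral n := ⟨1, -σ 0, Or.inl rfl, fun x => by simp⟩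
  have h2 : Equiv.addRight (-σ 0) * σ ∈ Aff n := by
    apply main hn hD hA
    · intro g hg
      have h3 := conj_mem hN hσ g hg
      have h4 := mul_mem (mul_mem (hD h1) h3) (inv_mem (hD h1))
      convert h4 using 1
      group
    · simp [Perm.mul_apply]
  have h3 := mul_mem (inv_mem (hA (hD h1))) h2
  rwa [inv_mul_cancel_left] at h3

theorem dihedral_le (n : ℕ) : dihedral n ≤ lifted n := by
  rintro σ ⟨u, b, hu, h⟩
  rcases hu with rfl | rfl
  · exact ⟨1, b, by simp, by simpa using h⟩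
  · exact ⟨-1, b, by simp, by simpa using h⟩

theorem lifted_le (n : ℕ) : lifted n ≤ Aff n := by
  rintro σ ⟨u, b, -, h⟩
  exact ⟨u, b, h⟩

/-- For `gcd(n, 6) = 1` there is no non-affine panmagic `N`-ary coset of the lifted dihedral group. More
generally, for odd `n` and every group `H` between the dihedral group and the affine group, every coset of `H`
that is closed under `N`-fold products for some `N ≥ 2` is affine. -/
theorem result :
    (∀ n : ℕ, 5 ≤ n → Nat.gcd n 6 = 1 → ¬ ∃ σ : Perm (ZMod n), σ ∉ Aff n ∧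
      (∃ N, 2 ≤ N ∧ IsNaryCoset σ (lifted n) N) ∧ ∀ h ∈ lifted n, Panmagic (σ * h)) ∧
    (∀ n : ℕ, Odd n → ∀ H : Subgroup (Perm (ZMod n)), dihedral n ≤ H → H ≤ Aff n →
      ∀ (σ : Perm (ZMod n)) (N : ℕ), 2 ≤ N → IsNaryCoset σ H N → σ ∈ Aff n) := by
  refine ⟨?_, fun n hn H h1 h2 σ N hN hσ => general hn h1 h2 hN hσ⟩
  rintro n - hn ⟨σ, h1, ⟨N, hN, h2⟩, -⟩
  apply h1
  refine general ?_ (dihedral_le n) (lifted_le n) hN h2
  rw [← Nat.not_even_iff_odd, even_iff_two_dvd]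
  intro h
  have := Nat.dvd_gcd h (by norm_num : 2 ∣ 6)
  rw [hn] at this
  omega

end Pool.Agent.Results.MP_72c4d1_al.AffineCosets
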